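import Mathlib

/-! A checker for the search through digraphs in which every pair lies in a directed triangle. -/

set_option autoImplicit false

namespace Pool.Agent.MP_16ca68_co.D

/-- Directed triangles. -/
def E {V : Type} (r : V → V → Prop) (a b c : V) : Prop :=
  (r a b ∧ r b c ∧ r c a) ∨ (r a c ∧ r c b ∧ r b a)

def tb (A i j : ℕ) : Bool := Nat.testBit A (16 * i + j)

def tri (A a b c : ℕ) : Bool :=
  (tb A a b && tb A b c && tb A c a) || (tb A a c && tb A c b && tb A b a)

def dg (c i : ℕ) : ℕ := c / 16 ^ i % 16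

lemma dg_lt (c i : ℕ) : dg c i < 16 := Nat.mod_lt _ (by norm_num)

/-- The four forbidden 3-graphs. -/
def pat : ℕ → List (ℕ × ℕ × ℕ)
  | 0 => [(0, 1, 2), (0, 1, 3), (0, 2, 3)]
  | 1 => [(0, 1, 2), (0, 3, 4), (1, 3, 4), (2, 3, 4)]
  | 2 => [(0, 1, 2), (1, 2, 3), (2, 3, 4), (0, 3, 4), (0, 1, 4)]
  | _ => [(0, 1, 3), (0, 1, 5), (0, 2, 3), (0, 2, 6), (0, 4, 5), (0, 4, 6), (1, 2, 4), (1, 2, 6),
      (1, 3, 4), (1, 5, 6), (2, 3, 5), (2, 4, 5), (3, 4, 6), (3, 5, 6)]

/-- The cyclic triangles of the Paley tournament on seven points with one point removed. -/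
def T6 (i j k : Fin 6) : Bool := Nat.testBit
  0x94823102409080624a401180408844084a30182101442210a500
  (36 * i.val + 6 * j.val + k.val)

def col (c i : ℕ) : Fin 6 := ⟨dg c i % 6, Nat.mod_lt _ (by norm_num)⟩

/-- Evaluate a number before passing it on. -/
noncomputable def force (x : ℕ) (k : ℕ → ℕ) : ℕ :=
  Nat.rec (k 0) (fun m _ => k (Nat.succ m)) x

theorem force_eq (x : ℕ) (k : ℕ → ℕ) : force x k = k x := by
  cases x <;> rfl

def allLt (n : ℕ) (p : ℕ → Bool) : Bool := (List.range n).all p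

lemma allLt_spec {n : ℕ} {p : ℕ → Bool} (h : allLt n p = true) : ∀ i < n, p i = true := by
  intro i hi
  exact List.all_eq_true.1 h i (List.mem_range.2 hi)

def dead (A p c : ℕ) : Bool := (pat p).all fun t => tri A (dg c t.1) (dg c t.2.1) (dg c t.2.2)

def iso (k A B c : ℕ) : Bool :=
  allLt (k + 1) (fun a => decide (dg c a ≤ k)) &&
    allLt (k + 1) fun a => allLt (k + 1) fun b => tb B a b == tb A (dg c a) (dg c b)

/-- Leaves that end a branch early; `i` pairs at the new point are decided. -/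
def leaf (k : ℕ) (U : Bool) (i A c : ℕ) : ℕ :=
  bif c % 16 == 2 then (bif U && decide (2 ≤ i) && !tri A 0 1 k then c / 16 else 0)
  else bif decide (3 ≤ c % 16) && dead A (c % 16 - 3) (c / 16) then c / 16 ^ 8 else 0

/-- The search; it returns the unread part of the certificate, or zero on failure. -/
noncomputable def go (k : ℕ) (U : Bool) (next : List ℕ) : ℕ → ℕ → ℕ → ℕ
  | 0, A, c =>
    bif c % 16 == 1 then
      (bif decide (c / 16 % 256 < next.length) && iso k A (next.getD (c / 16 % 256) 0) (c / 4096)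
        then c / 4096 / 16 ^ (k + 1) else 0)
    else leaf k U k A c
  | n + 1, A, c =>
    bif c % 16 == 1 then
      force (A ||| 2 ^ (16 * k + (k - (n + 1)))) fun A1 =>
      force (A ||| 2 ^ (16 * (k - (n + 1)) + k)) fun A2 =>
      force (A1 ||| 2 ^ (16 * (k - (n + 1)) + k)) fun A3 =>
      force (c / 16) fun c0 => force (go k U next n A1 c0) fun c1 =>
      force (go k U next n A2 c1) fun c2 => go k U next n A3 c2
    else leaf k U (k - (n + 1)) A c

lemma go_zero (k : ℕ) (U : Bool) (next : List ℕ) (n A : ℕ) : go k U next n A 0 = 0 := by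
  cases n <;> simp [go, leaf]

/-- The test of one state: arcs, kind, colouring, certificate. -/
noncomputable def chk (k : ℕ) (next : List ℕ) (s : ℕ × Bool × ℕ × ℕ) : Bool :=
  decide (k < 16) &&
  (allLt 16 fun a => allLt 16 fun b => !tb s.1 a b || (decide (a < k) && decide (b < k))) &&
  (bif s.2.1 then decide (2 ≤ k) && (tb s.1 0 1 || tb s.1 1 0) && allLt k fun c => !tri s.1 0 1 c
    else allLt k fun a => allLt k fun b => allLt k fun c =>
      !tri s.1 a b c || T6 (col s.2.2.1 a) (col s.2.2.1 b) (col s.2.2.1 c)) &&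
  !(go k s.2.1 next k s.1 s.2.2.2 == 0)

section

variable {V : Type} (r : V → V → Prop) (S : Finset V)

/-- A forbidden 3-graph occurs. -/
def Bad : Prop := ∃ (p : ℕ) (φ : ℕ → V), ∀ t ∈ pat p, E r (φ t.1) (φ t.2.1) (φ t.2.2)

/-- The triangles inside `S` map to `T6`. -/
def Small : Prop := ∃ c : V → Fin 6, ∀ a ∈ S, ∀ b ∈ S, ∀ d ∈ S, E r a b d → T6 (c a) (c b) (c d) = true

def Cov : Prop := ∀ a ∈ S, ∀ b ∈ S, a ≠ b → ∃ c ∈ S, E r a b c

def Good (k A : ℕ) : Prop := ∀ e : ℕ → V, (∀ j < k, e j ∈ S) →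
  (∀ a < k, ∀ b < k, (tb A a b = true ↔ r (e a) (e b))) → Bad r ∨ Small r S

structure Inv (k i A : ℕ) (e : ℕ → V) : Prop where
  mem : ∀ j ≤ k, e j ∈ S
  new : ∀ j < k, e j ≠ e k
  sub : ∀ a < 16, ∀ b < 16, tb A a b = true → r (e a) (e b)
  old : ∀ a < k, ∀ b < k, r (e a) (e b) → tb A a b = true
  dec : ∀ a < i, (r (e a) (e k) → tb A a k = true) ∧ (r (e k) (e a) → tb A k a = true)

variable {r S}

lemma tb_or {A x y a b : ℕ} (hy : y < 16) (hb : b < 16) :
    tb (A ||| 2 ^ (16 * x + y)) a b = true ↔ tb A a b = true ∨ (a = x ∧ b = y) := by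
  unfold tb
  rw [Nat.testBit_or, Bool.or_eq_true, Nat.testBit_two_pow, decide_eq_true_eq]
  constructor
  · rintro (h | h)
    · exact Or.inl h
    · exact Or.inr (by omega)
  · rintro (h | ⟨rfl, rfl⟩)
    · exact Or.inl h
    · exact Or.inr rfl

lemma tri_E {A : ℕ} {e : ℕ → V} (h : ∀ a < 16, ∀ b < 16, tb A a b = true → r (e a) (e b))
    {a b c : ℕ} (ha : a < 16) (hb : b < 16) (hc : c < 16) (t : tri A a b c = true) :
    E r (e a) (e b) (e c) := by
  simp only [tri, Bool.or_eq_true, Bool.and_eq_true] at t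
  rcases t with ⟨⟨h1, h2⟩, h3⟩ | ⟨⟨h1, h2⟩, h3⟩
  · exact Or.inl ⟨h _ ha _ hb h1, h _ hb _ hc h2, h _ hc _ ha h3⟩
  · exact Or.inr ⟨h _ ha _ hc h1, h _ hc _ hb h2, h _ hb _ ha h3⟩

lemma leaf_ok {k i A c : ℕ} {U : Bool} {e : ℕ → V} (hi : i ≤ k) (h : Inv r S k i A e)
    (hU : U = true → E r (e 0) (e 1) (e k)) (hl : leaf k U i A c ≠ 0) : Bad r := by
  unfold leaf at hl
  cases h2 : (c % 16 == 2)
  · rw [h2, cond_false] at hl
    cases h3 : (decide (3 ≤ c % 16) && dead A (c % 16 - 3) (c / 16))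
    · rw [h3] at hl
      exact absurd rfl hl
    · rw [Bool.and_eq_true] at h3
      refine ⟨c % 16 - 3, fun j => e (dg (c / 16) j), fun t ht => ?_⟩
      exact tri_E h.sub (dg_lt _ _) (dg_lt _ _) (dg_lt _ _) (List.all_eq_true.1 h3.2 t ht)
  · rw [h2, cond_true] at hl
    cases h3 : (U && decide (2 ≤ i) && !tri A 0 1 k)
    · rw [h3] at hl
      exact absurd rfl hl
    · exfalso
      simp only [Bool.and_eq_true, decide_eq_true_eq, Bool.not_eq_true'] at h3
      obtain ⟨⟨u, h2i⟩, nt⟩ := h3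
      have d0 := h.dec 0 (by omega)
      have d1 := h.dec 1 (by omega)
      rcases hU u with ⟨h1, h2, h3⟩ | ⟨h1, h2, h3⟩
      · simp [tri, h.old 0 (by omega) 1 (by omega) h1, d1.1 h2, d0.2 h3] at nt
      · simp [tri, h.old 1 (by omega) 0 (by omega) h3, d0.1 h1, d1.2 h2] at nt

lemma Inv.step {k i A A' : ℕ} {e : ℕ → V} (h : Inv r S k i A e)
    (h1 : ∀ a < 16, ∀ b < 16, tb A' a b = true → tb A a b = true ∨ r (e a) (e b))
    (h2 : ∀ a, ∀ b < 16, tb A a b = true → tb A' a b = true) (hk : k < 16) (hi : i < k)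
    (h3 : r (e i) (e k) → tb A' i k = true) (h4 : r (e k) (e i) → tb A' k i = true) :
    Inv r S k (i + 1) A' e := by
  refine ⟨h.mem, h.new, fun a ha b hb t => ?_, fun a ha b hb t => ?_, fun a ha => ?_⟩
  · rcases h1 a ha b hb t with t | t
    · exact h.sub a ha b hb t
    · exact t
  · exact h2 a b (by omega) (h.old a ha b hb t)
  · rcases Nat.lt_succ_iff_lt_or_eq.1 ha with ha | rfl
    · exact ⟨fun t => h2 _ _ hk ((h.dec a ha).1 t), fun t => h2 _ _ (by omega) ((h.dec a ha).2 t)⟩
    · exact ⟨h3, h4⟩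

lemma go_ok (hr : ∀ a, ¬ r a a) (hS : Cov r S) {k : ℕ} (hk : k < 16) {U : Bool} {next : List ℕ}
    (hn : ∀ B ∈ next, Good r S (k + 1) B) {e : ℕ → V} (hU : U = true → E r (e 0) (e 1) (e k)) :
    ∀ n, n ≤ k → ∀ A c, Inv r S k (k - n) A e → go k U next n A c ≠ 0 → Bad r ∨ Small r S := by
  intro n
  induction n with
  | zero =>
    intro _ A c h hg
    rw [Nat.sub_zero] at h
    unfold go at hg
    cases h1 : (c % 16 == 1)
    · rw [h1, cond_false] at hg
      exact Or.inl (leaf_ok le_rfl h hU hg)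
    · rw [h1, cond_true] at hg
      cases h2 : (decide (c / 16 % 256 < next.length) &&
          iso k A (next.getD (c / 16 % 256) 0) (c / 4096))
      · rw [h2] at hg
        exact absurd rfl hg
      · simp only [iso, Bool.and_eq_true, decide_eq_true_eq] at h2
        obtain ⟨hl, hs, hi⟩ := h2
        have hs' : ∀ a < k + 1, dg (c / 4096) a ≤ k := fun a ha => by
          simpa using allLt_spec hs a ha
        refine hn (next.getD (c / 16 % 256) 0)
          (by rw [List.getD_eq_getElem _ _ hl]; exact List.getElem_mem hl)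
          (fun j => e (dg (c / 4096) j)) (fun j hj => h.mem _ (hs' j hj)) fun a ha b hb => ?_
        have := allLt_spec (allLt_spec hi a ha) b hb
        rw [beq_iff_eq] at this
        rw [this]
        refine ⟨h.sub _ (dg_lt _ _) _ (dg_lt _ _), fun t => ?_⟩
        rcases (hs' a ha).lt_or_eq with ha' | ha' <;> rcases (hs' b hb).lt_or_eq with hb' | hb'
        · exact h.old _ ha' _ hb' t
        · rw [hb'] at t ⊢
          exact (h.dec _ ha').1 t
        · rw [ha'] at t ⊢
          exact (h.dec _ hb').2 t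
        · rw [ha', hb'] at t
          exact absurd t (hr _)
  | succ n ih =>
    intro hnk A c h hg
    unfold go at hg
    cases h1 : (c % 16 == 1)
    · rw [h1, cond_false] at hg
      exact Or.inl (leaf_ok (by omega) h hU hg)
    · rw [h1, cond_true] at hg
      simp only [force_eq] at hg
      set i := k - (n + 1) with hi
      have hik : i < k := by omega
      have hi16 : i < 16 := by omega
      have e1 : k - n = i + 1 := by omega
      have nz : ∀ B x, go k U next n B x ≠ 0 → x ≠ 0 := fun B x hx h0 => hx (by rw [h0, go_zero])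
      have g2 := nz _ _ hg
      have g1 := nz _ _ g2
      by_cases a1 : r (e i) (e k) <;> by_cases a2 : r (e k) (e i)
      · refine ih (by omega) _ _ (e1 ▸ h.step (fun a _ b hb t => ?_) (fun a b hb t => ?_) hk hik
          (fun _ => ?_) fun _ => ?_) hg
        · rcases (tb_or hk hb).1 t with t | ⟨rfl, rfl⟩
          · rcases (tb_or hi16 hb).1 t with t | ⟨rfl, rfl⟩
            · exact Or.inl t
            · exact Or.inr a2
          · exact Or.inr a1
        · exact (tb_or hk hb).2 (Or.inl ((tb_or hi16 hb).2 (Or.inl t)))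
        · exact (tb_or hk hk).2 (Or.inr ⟨rfl, rfl⟩)
        · exact (tb_or hk hi16).2 (Or.inl ((tb_or hi16 hi16).2 (Or.inr ⟨rfl, rfl⟩)))
      · refine ih (by omega) _ _ (e1 ▸ h.step (fun a _ b hb t => ?_) (fun a b hb t => ?_) hk hik
          (fun _ => ?_) fun t => absurd t a2) g2
        · rcases (tb_or hk hb).1 t with t | ⟨rfl, rfl⟩
          · exact Or.inl t
          · exact Or.inr a1
        · exact (tb_or hk hb).2 (Or.inl t)
        · exact (tb_or hk hk).2 (Or.inr ⟨rfl, rfl⟩)
      · refine ih (by omega) _ _ (e1 ▸ h.step (fun a _ b hb t => ?_) (fun a b hb t => ?_) hk hik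
          (fun t => absurd t a1) fun _ => ?_) g1
        · rcases (tb_or hi16 hb).1 t with t | ⟨rfl, rfl⟩
          · exact Or.inl t
          · exact Or.inr a2
        · exact (tb_or hi16 hb).2 (Or.inl t)
        · exact (tb_or hi16 hi16).2 (Or.inr ⟨rfl, rfl⟩)
      · obtain ⟨w, -, hw⟩ := hS _ (h.mem i hik.le) _ (h.mem k le_rfl) (h.new i hik)
        rcases hw with hw | hw
        · exact absurd hw.1 a1
        · exact absurd hw.2.2 a2

lemma E_tri {k A : ℕ} {e : ℕ → V}
    (h : ∀ a < k, ∀ b < k, (tb A a b = true ↔ r (e a) (e b))) {a b c : ℕ} (ha : a < k)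
    (hb : b < k) (hc : c < k) (t : E r (e a) (e b) (e c)) : tri A a b c = true := by
  rcases t with ⟨h1, h2, h3⟩ | ⟨h1, h2, h3⟩
  · simp [tri, (h _ ha _ hb).2 h1, (h _ hb _ hc).2 h2, (h _ hc _ ha).2 h3]
  · simp [tri, (h _ ha _ hc).2 h1, (h _ hc _ hb).2 h2, (h _ hb _ ha).2 h3]

lemma chk_ok (hr : ∀ a, ¬ r a a) (hS : Cov r S) {k : ℕ} {next : List ℕ}
    (hn : ∀ B ∈ next, Good r S (k + 1) B) {s : ℕ × Bool × ℕ × ℕ} (h : chk k next s = true) :
    Good r S k s.1 := by
  classical
  obtain ⟨A, U, τ, c⟩ := s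
  simp only [chk, Bool.and_eq_true, decide_eq_true_eq, Bool.not_eq_true', beq_eq_false_iff_ne]
    at h
  obtain ⟨⟨⟨hk, hb⟩, hT⟩, hg⟩ := h
  intro e hm hx
  have ext : ∀ w ∈ S, (∀ j < k, e j ≠ w) → (U = true → 2 ≤ k ∧ E r (e 0) (e 1) w) →
      Bad r ∨ Small r S := by
    intro w hw hnew hU
    have e1 : ∀ j < k, Function.update e k w j = e j := fun j hj =>
      Function.update_of_ne (by omega) _ _
    have e2 : Function.update e k w k = w := Function.update_self _ _ _
    refine go_ok hr hS hk hn (e := Function.update e k w) (fun u => ?_) k le_rfl A c ?_ hg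
    · obtain ⟨h2, h3⟩ := hU u
      rwa [e1 0 (by omega), e1 1 (by omega), e2]
    · refine ⟨fun j hj => ?_, fun j hj => ?_, fun a ha b hb' t => ?_, fun a ha b hb' t => ?_,
        fun a ha => absurd ha (by omega)⟩
      · rcases hj.lt_or_eq with hj | rfl
        · rw [e1 j hj]
          exact hm j hj
        · rwa [e2]
      · rw [e1 j hj, e2]
        exact hnew j hj
      · have := allLt_spec (allLt_spec hb a ha) b hb'
        simp only [t, Bool.not_true, Bool.false_or, Bool.and_eq_true, decide_eq_true_eq] at this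
        rw [e1 a this.1, e1 b this.2]
        exact (hx a this.1 b this.2).1 t
      · rw [e1 a ha, e1 b hb'] at t
        exact (hx a ha b hb').2 t
  cases U
  · rw [cond_false] at hT
    by_cases hall : ∀ w ∈ S, ∃ j, j < k ∧ e j = w
    · choose! ι h1 h2 using hall
      refine Or.inr ⟨fun x => col τ (ι x), fun a ha b hb' d hd t => ?_⟩
      have := allLt_spec (allLt_spec (allLt_spec hT _ (h1 a ha)) _ (h1 b hb')) _ (h1 d hd)
      rw [← h2 a ha, ← h2 b hb', ← h2 d hd] at t
      simpa [E_tri hx (h1 a ha) (h1 b hb') (h1 d hd) t] using this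
    · push Not at hall
      obtain ⟨w, hw, hnew⟩ := hall
      exact ext w hw hnew fun u => absurd u (by simp)
  · simp only [cond_true, Bool.and_eq_true, decide_eq_true_eq, Bool.or_eq_true] at hT
    obtain ⟨⟨h2, h01⟩, hu⟩ := hT
    have hne : e 0 ≠ e 1 := by
      intro h0
      rcases h01 with t | t
      · exact hr _ (h0 ▸ (hx 0 (by omega) 1 (by omega)).1 t)
      · exact hr _ (h0 ▸ (hx 1 (by omega) 0 (by omega)).1 t)
    obtain ⟨w, hw, hE⟩ := hS _ (hm 0 (by omega)) _ (hm 1 (by omega)) hne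
    refine ext w hw (fun j hj h0 => ?_) fun _ => ⟨h2, hE⟩
    have := allLt_spec hu j hj
    rw [← h0] at hE
    simp [E_tri hx (by omega) (by omega) hj hE] at this

lemma level (hr : ∀ a, ¬ r a a) (hS : Cov r S) {k : ℕ} {L L' : List (ℕ × Bool × ℕ × ℕ)}
    (h : L.all (chk k (L'.map Prod.fst)) = true)
    (hn : ∀ B ∈ L'.map Prod.fst, Good r S (k + 1) B) : ∀ B ∈ L.map Prod.fst, Good r S k B := by
  intro B hB
  obtain ⟨s, hs, rfl⟩ := List.mem_map.1 hB
  exact chk_ok hr hS hn (List.all_eq_true.1 h s hs)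

end

end Pool.Agent.MP_16ca68_co.D
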