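import Pool.Agent.MP_16ca68_co.D.Lag

/-! The forbidden 3-graphs have dense blow-ups. -/

set_option autoImplicit false

namespace Pool.Agent.MP_16ca68_co.D

open Finset

/-- The blow-up density of the 3-graph with edges `012, 034, 134, 234`. -/
noncomputable def bet : ℝ := (189 + 15 * √5) / 961

/-- Some blow-up has density at least `b`. -/
def Hv {W : Type} [Fintype W] (b : ℝ) (G : W → W → W → Bool) : Prop :=
  ∃ w : W → ℕ, 0 < ∑ i, w i ∧ b * ((∑ i, w i : ℕ) : ℝ) ^ 3 ≤ ((P G univ w : ℕ) : ℝ)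

lemma Hv.push {V W : Type} [Fintype V] [Fintype W] [DecidableEq W] {b : ℝ}
    {G : W → W → W → Bool} {G' : V → V → V → Bool} (φ : V → W)
    (h : ∀ i j k, G' i j k = true → G (φ i) (φ j) (φ k) = true) (hG : Hv b G') : Hv b G := by
  obtain ⟨w, h0, h1⟩ := hG
  refine ⟨fun i => ∑ a ∈ univ with φ a = i, w a, ?_, ?_⟩
  · rwa [sum_fiberwise]
  · rw [sum_fiberwise, ← P_push G univ φ w]
    refine h1.trans (Nat.cast_le.2 ?_)
    refine sum_le_sum fun a _ => sum_le_sum fun b _ => sum_le_sum fun d _ => ?_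
    by_cases g : G' a b d = true
    · simp [g, h a b d g]
    · simp [g]

def eq3 (i j k : ℕ) (t : ℕ × ℕ × ℕ) : Bool := i == t.1 && j == t.2.1 && k == t.2.2

/-- The symmetric relation of a pattern. -/
def GP (p : ℕ) (i j k : Fin 7) : Bool := (pat p).any fun t =>
  eq3 i j k t || eq3 j k i t || eq3 k i j t || eq3 i k j t || eq3 k j i t || eq3 j i k t

lemma s5 : (2.236 : ℝ) < √5 ∧ √5 < 2.2361 :=
  ⟨Real.lt_sqrt_of_sq_lt (by norm_num), (Real.sqrt_lt' (by norm_num)).2 (by norm_num)⟩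

lemma bet_lt : bet < 0.2316 := by
  unfold bet
  linarith [s5.2]

lemma bet_gt : 0.2315 < bet := by
  unfold bet
  linarith [s5.1]

lemma hv0 {b : ℝ} (hb : b < bet) : Hv b (GP 0) := by
  refine ⟨![3, 2, 2, 2, 0, 0, 0], by decide, ?_⟩
  rw [show P (GP 0) univ ![3, 2, 2, 2, 0, 0, 0] = 216 by decide +kernel,
    show ∑ i, (![3, 2, 2, 2, 0, 0, 0] : Fin 7 → ℕ) i = 9 by decide]
  have := bet_lt
  norm_num
  linarith

lemma hv2 {b : ℝ} (hb : b < bet) : Hv b (GP 2) := by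
  refine ⟨![1, 1, 1, 1, 1, 0, 0], by decide, ?_⟩
  rw [show P (GP 2) univ ![1, 1, 1, 1, 1, 0, 0] = 30 by decide +kernel,
    show ∑ i, (![1, 1, 1, 1, 1, 0, 0] : Fin 7 → ℕ) i = 5 by decide]
  have := bet_lt
  norm_num
  linarith

lemma hv3 {b : ℝ} (hb : b < bet) : Hv b (GP 3) := by
  refine ⟨![1, 1, 1, 1, 1, 1, 1], by decide, ?_⟩
  rw [show P (GP 3) univ ![1, 1, 1, 1, 1, 1, 1] = 84 by decide +kernel,
    show ∑ i, (![1, 1, 1, 1, 1, 1, 1] : Fin 7 → ℕ) i = 7 by decide]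
  have := bet_lt
  norm_num
  linarith

lemma P_GP1 {R : Type} [CommSemiring R] (y : Fin 7 → R) :
    P (GP 1) univ y = 6 * (y 0 * y 1 * y 2 + y 3 * y 4 * (y 0 + y 1 + y 2)) := by
  simp only [P, Fin.sum_univ_seven]
  simp +decide only [if_true, if_false]
  ring

lemma hv1 {b : ℝ} (hb : b < bet) : Hv b (GP 1) := by
  have h5 : √5 ^ 2 = 5 := Real.sq_sqrt (by norm_num)
  have hc : Continuous fun s : ℝ => 2 / 9 * s ^ 3 + 3 / 2 * s * (1 - s) ^ 2 := by fun_prop
  have ho : IsOpen {s : ℝ | 0 < s ∧ s < 1 ∧ b < 2 / 9 * s ^ 3 + 3 / 2 * s * (1 - s) ^ 2} :=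
    (isOpen_lt continuous_const continuous_id).inter
      ((isOpen_lt continuous_id continuous_const).inter (isOpen_lt continuous_const hc))
  obtain ⟨s, h0, h1, h2⟩ := Rat.denseRange_cast.exists_mem_open ho ⟨(18 - 3 * √5) / 31,
    by linarith [s5.2], by linarith [s5.1], by
      refine hb.trans_eq ?_
      unfold bet
      linear_combination ((0 / 1) + (3 / 1922) * √5) * h5⟩
  have s0 : 0 < s := by exact_mod_cast h0
  have s1 : s < 1 := by exact_mod_cast h1
  obtain ⟨p, hp⟩ := Int.eq_ofNat_of_zero_le (Rat.num_pos.2 s0).le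
  have hd : (0 : ℝ) < s.den := by exact_mod_cast s.den_pos
  have hs : (s : ℝ) = p / s.den := by
    rw [Rat.cast_def, hp]
    simp
  have hpd : p ≤ s.den := by
    rw [hs, div_lt_one hd] at h1
    exact_mod_cast h1.le
  obtain ⟨u, hu⟩ := Nat.exists_eq_add_of_le hpd
  refine ⟨![2 * p, 2 * p, 2 * p, 3 * u, 3 * u, 0, 0], ?_, ?_⟩
  · have := s.den_pos
    simp [Fin.sum_univ_seven]
    omega
  · rw [P_GP1]
    simp only [Fin.sum_univ_seven]
    have hu' : (s.den : ℝ) = p + u := by exact_mod_cast hu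
    have e1 : (p : ℝ) = s * s.den := by rw [hs]; field_simp
    have e2 : (u : ℝ) = (1 - s) * s.den := by linarith
    have h3 := mul_le_mul_of_nonneg_right h2.le (pow_pos hd 3).le
    simp
    rw [e1, e2]
    nlinarith

lemma bad_hv {V : Type} [Fintype V] [DecidableEq V] {r : V → V → Prop} (h : Bad r) {b : ℝ}
    (hb : b < bet) : Hv b (EB r) := by
  obtain ⟨p, φ, h⟩ := h
  have key : ∀ i j k : Fin 7, GP p i j k = true → EB r (φ i) (φ j) (φ k) = true := by
    intro i j k g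
    obtain ⟨t, ht, g⟩ := List.any_eq_true.1 g
    have := h t ht
    rw [EB_iff]
    simp only [eq3, Bool.or_eq_true, Bool.and_eq_true, beq_iff_eq] at g
    unfold E at this ⊢
    rcases g with ((((g | g) | g) | g) | g) | g <;> rw [g.1.1, g.1.2, g.2] <;> tauto
  refine Hv.push (fun i : Fin 7 => φ i) key ?_
  match p with
  | 0 => exact hv0 hb
  | 1 => exact hv1 hb
  | 2 => exact hv2 hb
  | _ + 3 => exact hv3 hb

/-- the blow-up density of the pattern `1` is at most `bet` -/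
lemma f32_le {a b c d e : ℝ} (ha : 0 ≤ a) (hb : 0 ≤ b) (hc : 0 ≤ c) (hd : 0 ≤ d) (he : 0 ≤ e) :
    6 * (a * b * c + d * e * (a + b + c)) ≤ bet * (a + b + c + d + e) ^ 3 := by
  have h5 : √5 ^ 2 = 5 := Real.sq_sqrt (by norm_num)
  have h1 := amgm ha hb hc
  have hs : 0 ≤ a + b + c := by linarith
  have hu : 0 ≤ d + e := by linarith
  have h2 : d * e * (a + b + c) ≤ (d + e) ^ 2 / 4 * (a + b + c) :=
    mul_le_mul_of_nonneg_right (by nlinarith [sq_nonneg (d - e)]) hs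
  have key : ∀ s u : ℝ, 0 ≤ s → 0 ≤ u → 2 / 9 * s ^ 3 + 3 / 2 * s * u ^ 2 ≤ bet * (s + u) ^ 3 := by
    intro s u hs hu
    have hα : 0 ≤ bet - 2 / 9 := by linarith [bet_gt]
    have hγ : (0 : ℝ) ≤ (344 / 961 + 448 / 2883 * √5) := by linarith [s5.1]
    have := mul_nonneg (sq_nonneg (s - 3 * (3 - √5) / 4 * u))
      (add_nonneg (mul_nonneg hα hs) (mul_nonneg hγ hu))
    have e : bet * (s + u) ^ 3 - (2 / 9 * s ^ 3 + 3 / 2 * s * u ^ 2) =
        (s - 3 * (3 - √5) / 4 * u) ^ 2 * ((bet - 2 / 9) * s + (344 / 961 + 448 / 2883 * √5) * u) := by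
      unfold bet
      linear_combination (((-45 / 1922)) * (s ^ 2 * u) +
        ((-2553 / 15376) + (-135 / 15376) * √5) * (s * u ^ 2) +
        ((621 / 1922) + (-84 / 961) * √5) * (u ^ 3)) * h5
    linarith
  have h3 := key _ _ hs hu
  have e : a + b + c + (d + e) = a + b + c + d + e := by ring
  rw [e] at h3
  linarith

end Pool.Agent.MP_16ca68_co.D
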