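import Pool.Agent.MP_16ca68_co.D.Data

/-! Weighted counts of directed triangles when no forbidden 3-graph occurs. -/

set_option autoImplicit false

namespace Pool.Agent.MP_16ca68_co.D

open Finset

/-- The weighted number of ordered triples. -/
def P {V R : Type} [CommSemiring R] (G : V → V → V → Bool) (S : Finset V) (x : V → R) : R :=
  ∑ a ∈ S, ∑ b ∈ S, ∑ d ∈ S, if G a b d then x a * x b * x d else 0

lemma sum_push {V W R : Type} [CommSemiring R] [Fintype W] [DecidableEq W] (S : Finset V)
    (c : V → W) (x : V → R) (F : W → R) :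
    ∑ a ∈ S, x a * F (c a) = ∑ i, (∑ a ∈ S with c a = i, x a) * F i := by
  rw [← sum_fiberwise S c]
  refine sum_congr rfl fun i _ => ?_
  rw [sum_mul]
  exact sum_congr rfl fun a ha => by rw [(mem_filter.1 ha).2]

lemma P_nest {V R : Type} [CommSemiring R] (G : V → V → V → Bool) (S : Finset V) (x : V → R) :
    P G S x = ∑ a ∈ S, x a * ∑ b ∈ S, x b * ∑ d ∈ S, x d * if G a b d then 1 else 0 := by
  simp only [P, mul_sum]
  refine sum_congr rfl fun a _ => sum_congr rfl fun b _ => sum_congr rfl fun d _ => ?_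
  split_ifs <;> ring

lemma P_push {V W R : Type} [CommSemiring R] [Fintype W] [DecidableEq W] (G : W → W → W → Bool)
    (S : Finset V) (c : V → W) (x : V → R) :
    P (fun a b d => G (c a) (c b) (c d)) S x = P G univ fun i => ∑ a ∈ S with c a = i, x a := by
  rw [P_nest, P_nest]
  rw [← sum_push S c x fun i => ∑ j, (∑ a ∈ S with c a = j, x a) *
    ∑ k, (∑ a ∈ S with c a = k, x a) * if G i j k then 1 else 0]
  refine sum_congr rfl fun a _ => congrArg _ ?_
  rw [← sum_push S c x fun j => ∑ k, (∑ a ∈ S with c a = k, x a) * if G (c a) j k then 1 else 0]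
  refine sum_congr rfl fun b _ => congrArg _ ?_
  exact sum_push S c x fun k => if G (c a) (c b) k then 1 else 0

lemma P_mono {V : Type} {G G' : V → V → V → Bool} {S : Finset V} {x : V → ℝ} (hx : ∀ a, 0 ≤ x a)
    (h : ∀ a ∈ S, ∀ b ∈ S, ∀ d ∈ S, G a b d = true → G' a b d = true) : P G S x ≤ P G' S x := by
  refine sum_le_sum fun a ha => sum_le_sum fun b hb => sum_le_sum fun d hd => ?_
  have := mul_nonneg (mul_nonneg (hx a) (hx b)) (hx d)
  by_cases g : G a b d = true
  · simp [g, h a ha b hb d hd g]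
  · rw [if_neg g]
    split_ifs
    · exact this
    · exact le_rfl

lemma amgm {a b c : ℝ} (ha : 0 ≤ a) (hb : 0 ≤ b) (hc : 0 ≤ c) : 27 * (a * b * c) ≤ (a + b + c) ^ 3 := by
  nlinarith [mul_nonneg ha (sq_nonneg (b - c)), mul_nonneg hb (sq_nonneg (a - c)),
    mul_nonneg hc (sq_nonneg (a - b)), mul_nonneg (add_nonneg (add_nonneg ha hb) hc)
      (add_nonneg (add_nonneg (sq_nonneg (a - b)) (sq_nonneg (b - c))) (sq_nonneg (a - c)))]

/-- four edges on five points, with one pair `u, v` in no edge -/
lemma five {u v a b c : ℝ} (hu : 0 ≤ u) (hv : 0 ≤ v) (ha : 0 ≤ a) (hb : 0 ≤ b) (hc : 0 ≤ c) :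
    27 * (u * (c * (a + b)) + v * (b * (a + c))) ≤ (u + v + a + b + c) ^ 3 := by
  have h1 := amgm (add_nonneg hu hv) hc (add_nonneg ha hb)
  have h2 := amgm (add_nonneg hu hv) hb (add_nonneg ha hc)
  rcases le_total (c * (a + b)) (b * (a + c)) with h | h
  · have := mul_le_mul_of_nonneg_left h hu
    have e : u + v + b + (a + c) = u + v + a + b + c := by ring
    rw [e] at h2
    nlinarith
  · have := mul_le_mul_of_nonneg_left h hv
    have e : u + v + c + (a + b) = u + v + a + b + c := by ring
    rw [e] at h1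
    nlinarith

def p6 (a b c d e f : ℝ) : ℝ :=
  a * b * c + a * b * e + a * c * d + a * e * f + b * c * f + b * d * f + c * d * e + d * e * f

lemma p6_face {a b c d e f : ℝ} (ha : 0 ≤ a) (hb : 0 ≤ b) (hc : 0 ≤ c) (hd : 0 ≤ d) (he : 0 ≤ e)
    (hf : 0 ≤ f) (h : a = 0 ∨ b = 0 ∨ c = 0 ∨ d = 0 ∨ e = 0 ∨ f = 0) :
    27 * p6 a b c d e f ≤ (a + b + c + d + e + f) ^ 3 := by
  unfold p6
  rcases h with rfl | rfl | rfl | rfl | rfl | rfl
  · convert five hb he hc hd hf using 1 <;> ring
  · convert five hc hf ha he hd using 1 <;> ring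
  · convert five ha hd hb hf he using 1 <;> ring
  · convert five he hc hf hb ha using 1 <;> ring
  · convert five hf ha hd hc hb using 1 <;> ring
  · convert five hd hb he ha hc using 1 <;> ring

lemma p6_le {a b c d e f : ℝ} (ha : 0 ≤ a) (hb : 0 ≤ b) (hc : 0 ≤ c) (hd : 0 ≤ d) (he : 0 ≤ e)
    (hf : 0 ≤ f) : 27 * p6 a b c d e f ≤ (a + b + c + d + e + f) ^ 3 := by
  have lin : ∀ t : ℝ, p6 (a + t) (b + t) (c + t) (d - t) (e - t) (f - t) =
      p6 a b c d e f + t * (p6 (a + 1) (b + 1) (c + 1) (d - 1) (e - 1) (f - 1) - p6 a b c d e f) := by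
    intro t
    unfold p6
    ring
  have tot : ∀ t : ℝ, a + t + (b + t) + (c + t) + (d - t) + (e - t) + (f - t) =
      a + b + c + d + e + f := fun t => by ring
  rcases le_total 0 (p6 (a + 1) (b + 1) (c + 1) (d - 1) (e - 1) (f - 1) - p6 a b c d e f) with
    h | h
  · have t0 : 0 ≤ min d (min e f) := le_min hd (le_min he hf)
    have := p6_face (a := a + min d (min e f)) (b := b + min d (min e f))
      (c := c + min d (min e f)) (d := d - min d (min e f)) (e := e - min d (min e f))
      (f := f - min d (min e f)) (by linarith) (by linarith) (by linarith)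
      (sub_nonneg.2 (min_le_left _ _)) (sub_nonneg.2 ((min_le_right _ _).trans (min_le_left _ _)))
      (sub_nonneg.2 ((min_le_right _ _).trans (min_le_right _ _))) (by
        rcases min_choice d (min e f) with h1 | h1
        · simp [h1]
        · rcases min_choice e f with h2 | h2 <;> simp [h1.trans h2])
    rw [lin, tot] at this
    nlinarith [mul_nonneg t0 h]
  · have t0 : 0 ≤ min a (min b c) := le_min ha (le_min hb hc)
    have := p6_face (a := a + -min a (min b c)) (b := b + -min a (min b c))
      (c := c + -min a (min b c)) (d := d - -min a (min b c)) (e := e - -min a (min b c))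
      (f := f - -min a (min b c)) (by linarith [min_le_left a (min b c)])
      (by linarith [(min_le_right a (min b c)).trans (min_le_left _ _)])
      (by linarith [(min_le_right a (min b c)).trans (min_le_right _ _)])
      (by linarith) (by linarith) (by linarith) (by
        rcases min_choice a (min b c) with h1 | h1
        · simp [h1]
        · rcases min_choice b c with h2 | h2 <;> simp [h1.trans h2])
    rw [lin, tot] at this
    nlinarith [mul_nonneg t0 (neg_nonneg.2 h)]

lemma P_T6 (y : Fin 6 → ℝ) : P T6 univ y = 6 * p6 (y 0) (y 1) (y 2) (y 3) (y 4) (y 5) := by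
  simp only [P, Fin.sum_univ_six, p6]
  simp +decide only [if_true, if_false]
  ring

section

variable {V : Type} [DecidableEq V] {r : V → V → Prop}

open Classical in
/-- Directed triangles as a Boolean relation. -/
noncomputable def EB (r : V → V → Prop) (a b c : V) : Bool := decide (E r a b c)

omit [DecidableEq V] in
lemma EB_iff {a b c : V} : EB r a b c = true ↔ E r a b c := by simp [EB]

omit [DecidableEq V] in
lemma EB_s1 (a b c : V) : EB r a b c = EB r b a c := by
  rw [Bool.eq_iff_iff, EB_iff, EB_iff]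
  unfold E
  tauto

omit [DecidableEq V] in
lemma EB_s2 (a b c : V) : EB r a b c = EB r a c b := by
  rw [Bool.eq_iff_iff, EB_iff, EB_iff]
  unfold E
  tauto

omit [DecidableEq V] in
lemma EB_irr (hr : ∀ a, ¬ r a a) (a c : V) : EB r a a c = false := by
  rw [Bool.eq_false_iff, Ne, EB_iff]
  unfold E
  have := hr a
  tauto

/-- The weight of the link. -/
noncomputable def Lk (r : V → V → Prop) (S : Finset V) (x : V → ℝ) (v : V) : ℝ :=
  ∑ b ∈ S, ∑ d ∈ S, if EB r v b d then x b * x d else 0

lemma P_insert (hr : ∀ a, ¬ r a a) {S : Finset V} {v : V} (hv : v ∉ S) (x : V → ℝ) :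
    P (EB r) (insert v S) x = P (EB r) S x + 3 * x v * Lk r S x v := by
  have i2 : ∀ a, EB r v a v = false := fun a => by rw [EB_s2, EB_irr hr]
  have i3 : ∀ a, EB r a v v = false := fun a => by rw [EB_s1, i2]
  have h1 : ∑ b ∈ S, ∑ d ∈ S, (if EB r v b d then x v * x b * x d else 0) = x v * Lk r S x v := by
    simp only [Lk, mul_sum]
    exact sum_congr rfl fun b _ => sum_congr rfl fun d _ => by split_ifs <;> ring
  have h2 : ∑ a ∈ S, ∑ d ∈ S, (if EB r a v d then x a * x v * x d else 0) = x v * Lk r S x v := by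
    rw [← h1]
    exact sum_congr rfl fun a _ => sum_congr rfl fun d _ => by
      rw [EB_s1]
      split_ifs <;> ring
  have h3 : ∑ a ∈ S, ∑ b ∈ S, (if EB r a b v then x a * x b * x v else 0) = x v * Lk r S x v := by
    rw [← h1]
    exact sum_congr rfl fun a _ => sum_congr rfl fun b _ => by
      rw [EB_s2, EB_s1]
      split_ifs <;> ring
  simp only [P, sum_insert hv, EB_irr hr, i2, i3, sum_add_distrib, h1, h2, h3]
  simp
  ring

omit [DecidableEq V] in
lemma P_congr {G : V → V → V → Bool} {S : Finset V} {x y : V → ℝ} (h : ∀ a ∈ S, x a = y a) :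
    P G S x = P G S y :=
  sum_congr rfl fun a ha => sum_congr rfl fun b hb => sum_congr rfl fun d hd => by
    rw [h a ha, h b hb, h d hd]

omit [DecidableEq V] in
lemma Lk_congr {S : Finset V} {x y : V → ℝ} (h : ∀ a ∈ S, x a = y a) (v : V) :
    Lk r S x v = Lk r S y v :=
  sum_congr rfl fun b hb => sum_congr rfl fun d hd => by rw [h b hb, h d hd]

omit [DecidableEq V] in
lemma small_le {S : Finset V} (h : Small r S) {x : V → ℝ} (hx : ∀ a, 0 ≤ x a) :
    P (EB r) S x ≤ 2 / 9 * (∑ a ∈ S, x a) ^ 3 := by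
  obtain ⟨c, hc⟩ := h
  have h1 : P (EB r) S x ≤ P (fun a b d => T6 (c a) (c b) (c d)) S x :=
    P_mono hx fun a ha b hb d hd t => hc a ha b hb d hd (EB_iff.1 t)
  rw [P_push T6 S c x, P_T6] at h1
  have h0 : ∀ i, 0 ≤ ∑ a ∈ S with c a = i, x a := fun i => sum_nonneg fun a _ => hx a
  have h2 := p6_le (h0 0) (h0 1) (h0 2) (h0 3) (h0 4) (h0 5)
  rw [← sum_fiberwise S c x, Fin.sum_univ_six]
  linarith

/-- merging two points that lie in no common triangle -/
lemma merge (hr : ∀ a, ¬ r a a) {R : Finset V} {u v : V} (hu : u ∉ R) (hv : v ∉ R) (huv : v ≠ u)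
    (hno : ∀ c ∈ R, ¬ E r v u c) {x : V → ℝ} (hx : ∀ a, 0 ≤ x a) (hL : Lk r R x v ≤ Lk r R x u)
    (ih : ∀ y : V → ℝ, (∀ a, 0 ≤ y a) →
      P (EB r) (insert u R) y ≤ 2 / 9 * (∑ a ∈ insert u R, y a) ^ 3) :
    P (EB r) (insert v (insert u R)) x ≤ 2 / 9 * (∑ a ∈ insert v (insert u R), x a) ^ 3 := by
  have hv' : v ∉ insert u R := by simp [huv, hv]
  have e : ∀ a ∈ R, Function.update x u (x u + x v) a = x a := fun a ha =>
    Function.update_of_ne (by rintro rfl; exact hu ha) _ _
  have h1 := ih (Function.update x u (x u + x v)) fun a => by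
    by_cases h : a = u
    · rw [h, Function.update_self]
      exact add_nonneg (hx _) (hx _)
    · rw [Function.update_of_ne h]
      exact hx a
  rw [P_insert hr hu, sum_insert hu, Function.update_self, P_congr e, Lk_congr e,
    sum_congr rfl e] at h1
  have n1 : ∀ c ∈ R, EB r v u c = false := fun c hc => by
    rw [Bool.eq_false_iff, Ne, EB_iff]
    exact hno c hc
  have h2 : Lk r (insert u R) x v = Lk r R x v := by
    have n0 : EB r v u u = false := by rw [EB_s1, EB_s2, EB_irr hr]
    simp only [Lk, sum_insert hu, n0, sum_add_distrib]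
    rw [sum_eq_zero fun c hc => by rw [n1 c hc]; rfl,
      sum_eq_zero fun c hc => by rw [EB_s2, n1 c hc]; rfl]
    simp
  rw [P_insert hr hv', P_insert hr hu, h2, sum_insert hv', sum_insert hu]
  have e2 : x v + (x u + ∑ a ∈ R, x a) = x u + x v + ∑ a ∈ R, x a := by ring
  rw [e2]
  nlinarith [mul_le_mul_of_nonneg_left hL (hx v)]

theorem lagr (hr : ∀ a, ¬ r a a) (hB : ¬ Bad r) (S : Finset V) :
    ∀ x : V → ℝ, (∀ a, 0 ≤ x a) → P (EB r) S x ≤ 2 / 9 * (∑ a ∈ S, x a) ^ 3 := by
  induction S using Finset.strongInduction with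
  | H S ih =>
    intro x hx
    rcases S.eq_empty_or_nonempty with rfl | ⟨v0, -⟩
    · simp [P]
    by_cases hS : Cov r S
    · exact small_le ((classify hr hS v0).resolve_left hB) hx
    · simp only [Cov, not_forall, not_exists, not_and] at hS
      obtain ⟨a, ha, b, hb, hab, hno⟩ := hS
      set R := (S.erase a).erase b with hR
      have haR : a ∉ R := by simp [hR]
      have hbR : b ∉ R := by simp [hR]
      have hRS : ∀ c ∈ R, c ∈ S := fun c hc => mem_of_mem_erase (mem_of_mem_erase hc)
      have e1 : insert b R = S.erase a := insert_erase (mem_erase.2 ⟨Ne.symm hab, hb⟩)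
      have e2 : insert a (insert b R) = S := by rw [e1, insert_erase ha]
      have e3 : insert b (insert a R) = S := by rw [insert_comm, e2]
      rcases le_total (Lk r R x a) (Lk r R x b) with h | h
      · rw [← e2]
        refine merge hr hbR haR hab (fun c hc => hno c (hRS c hc)) hx h (ih _ ?_)
        rw [← e2]
        exact ssubset_insert (by simp [hab, haR])
      · rw [← e3]
        refine merge hr haR hbR (Ne.symm hab) (fun c hc t => hno c (hRS c hc) ?_) hx h (ih _ ?_)
        · rw [← EB_iff, EB_s1, EB_iff]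
          exact t
        · rw [← e3]
          exact ssubset_insert (by simp [Ne.symm hab, hbR])

end

end Pool.Agent.MP_16ca68_co.D
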