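import Pool.Agent.MP_16ca68_co.D.Sat

/-! The exact jump for directed triangles. -/

set_option autoImplicit false

namespace Pool.Agent.MP_16ca68_co.D

open Finset

lemma rel_eq {n : ℕ} {r : Fin n → Fin n → Prop} {H : Finset (Finset (Fin n))}
    (h : ∀ e, e ∈ H ↔ e.card = 3 ∧ ∃ a b c, e = {a, b, c} ∧ r a b ∧ r b c ∧ r c a) :
    rel H = EB fun a b => r a b ∧ a ≠ b := by
  funext x y z
  rw [Bool.eq_iff_iff, EB_iff, rel, decide_eq_true_eq, h]
  constructor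
  · rintro ⟨h3, a, b, c, e, h1, h2, h4⟩
    have d : a ≠ b ∧ a ≠ c ∧ b ≠ c := by
      rw [e] at h3
      exact card_triple_eq_three_iff.1 h3
    obtain ⟨d1, d2, d3⟩ := d
    have ha : a ∈ ({x, y, z} : Finset (Fin n)) := by simp [e]
    have hb : b ∈ ({x, y, z} : Finset (Fin n)) := by simp [e]
    have hc : c ∈ ({x, y, z} : Finset (Fin n)) := by simp [e]
    simp only [mem_insert, mem_singleton] at ha hb hc
    have d1' := d1.symm
    have d2' := d2.symm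
    have d3' := d3.symm
    unfold E
    rcases ha with rfl | rfl | rfl <;> rcases hb with rfl | rfl | rfl <;>
      rcases hc with rfl | rfl | rfl <;> tauto
  · rintro (⟨h1, h2, h3⟩ | ⟨h1, h2, h3⟩)
    · exact ⟨card_triple_eq_three_iff.2 ⟨h1.2, h3.2.symm, h2.2⟩, x, y, z, rfl, h1.1, h2.1, h3.1⟩
    · exact ⟨card_triple_eq_three_iff.2 ⟨h3.2.symm, h1.2, h2.2.symm⟩, x, z, y,
        by rw [pair_comm y z], h1.1, h2.1, h3.1⟩

theorem jump (ε : ℝ) (hε : 0 < ε) (t : ℕ) (ht : 3 ≤ t) :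
    ∃ n₀ : ℕ, ∀ n : ℕ, n₀ ≤ n → ∀ (r : Fin n → Fin n → Prop) (H : Finset (Finset (Fin n))),
      (∀ e, e ∈ H ↔ e.card = 3 ∧ ∃ a b c, e = {a, b, c} ∧ r a b ∧ r b c ∧ r c a) →
      (2 / 9 + ε) * (n.choose 3 : ℝ) ≤ (H.card : ℝ) →
      ∃ S : Finset (Fin n), S.card = t ∧
        bet * (t.choose 3 : ℝ) ≤ ((H.filter fun e => e ⊆ S).card : ℝ) := by
  have hC : (0 : ℝ) < t.choose 3 := by exact_mod_cast Nat.choose_pos ht
  have hb := bet_gt
  have hy : 0 < bet * (t.choose 3 : ℝ) := mul_pos (by linarith) hC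
  set N := ⌈bet * (t.choose 3 : ℝ)⌉₊ with hN
  have h1 : (N : ℝ) < bet * (t.choose 3 : ℝ) + 1 := Nat.ceil_lt_add_one hy.le
  have h2 : (1 : ℝ) ≤ N := by exact_mod_cast Nat.ceil_pos.2 hy
  obtain ⟨n₀, h⟩ := dense (b := ((N : ℝ) - 1 + bet * (t.choose 3 : ℝ)) / 2 / (t.choose 3 : ℝ))
    (div_nonneg (by linarith) hC.le) (by rw [div_lt_iff₀ hC]; linarith) ε hε t ht
  refine ⟨n₀, fun n hn r H hH hd => ?_⟩
  obtain ⟨S, hS, h3⟩ := h n hn _ H (fun a h => h.2 rfl) (fun e he => ((hH e).1 he).1) (rel_eq hH) hd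
  refine ⟨S, hS, (Nat.le_ceil _).trans (Nat.cast_le.2 ?_)⟩
  rw [div_mul_cancel₀ _ hC.ne'] at h3
  have : (N : ℝ) < ((H.filter fun e => e ⊆ S).card : ℝ) + 1 := by linarith
  have : N < (H.filter fun e => e ⊆ S).card + 1 := by exact_mod_cast this
  omega

/-- A tournament whose cyclic triangles are the pattern `1`. -/
def R7 (i j : Fin 7) : Bool := decide ((i.val, j.val) ∈ [(0, 1), (1, 2), (2, 0), (0, 3), (1, 3),
  (2, 3), (3, 4), (4, 0), (4, 1), (4, 2)]) || (decide (i < j) && decide (5 ≤ j.val))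

lemma R7_tot : ∀ i j, i ≠ j → R7 i j = !R7 j i := by decide +kernel

lemma R7_irr : ∀ i, R7 i i = false := by decide +kernel

lemma R7_tri : ∀ i j k, GP 1 i j k =
    ((R7 i j && R7 j k && R7 k i) || (R7 i k && R7 k j && R7 j i)) := by decide +kernel

/-- The blow-up with transitive parts. -/
def blow {n : ℕ} (c : Fin n → Fin 7) (x y : Fin n) : Prop :=
  R7 (c x) (c y) = true ∨ (c x = c y ∧ x < y)

lemma blow_tot {n : ℕ} (c : Fin n → Fin 7) (x y : Fin n) (h : x ≠ y) :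
    blow c x y ↔ ¬ blow c y x := by
  unfold blow
  by_cases e : c x = c y
  · simp only [e, R7_irr, true_and, Bool.false_eq_true, false_or, not_lt]
    exact ⟨le_of_lt, fun l => lt_of_le_of_ne l h⟩
  · simp [R7_tot _ _ e, e, Ne.symm e]

lemma blow_cyc {n : ℕ} (c : Fin n → Fin 7) {x y z : Fin n} (h1 : blow c x y) (h2 : blow c y z)
    (h3 : blow c z x) : R7 (c x) (c y) = true := by
  have anti : ∀ i j, R7 i j = true → R7 j i = true → False := by decide +kernel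
  rcases h1 with h1 | ⟨e1, l1⟩
  · exact h1
  exfalso
  rcases h2 with h2 | ⟨e2, l2⟩ <;> rcases h3 with h3 | ⟨e3, l3⟩
  · exact anti _ _ (e1 ▸ h3) h2
  · rw [← e1, ← e3] at h2
    exact anti _ _ h2 h2
  · rw [← e2, ← e1] at h3
    exact anti _ _ h3 h3
  · exact absurd (l1.trans (l2.trans l3)) (lt_irrefl _)

lemma blow_E {n : ℕ} (c : Fin n → Fin 7) :
    (EB fun a b => blow c a b ∧ a ≠ b) = fun x y z => GP 1 (c x) (c y) (c z) := by
  funext x y z
  have key : ∀ a b, R7 (c a) (c b) = true → blow c a b ∧ a ≠ b := fun a b h =>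
    ⟨Or.inl h, by rintro rfl; simp [R7_irr] at h⟩
  rw [Bool.eq_iff_iff, EB_iff, R7_tri]
  simp only [Bool.or_eq_true, Bool.and_eq_true]
  constructor
  · rintro (⟨h1, h2, h3⟩ | ⟨h1, h2, h3⟩)
    · exact Or.inl ⟨⟨blow_cyc c h1.1 h2.1 h3.1, blow_cyc c h2.1 h3.1 h1.1⟩,
        blow_cyc c h3.1 h1.1 h2.1⟩
    · exact Or.inr ⟨⟨blow_cyc c h1.1 h2.1 h3.1, blow_cyc c h2.1 h3.1 h1.1⟩,
        blow_cyc c h3.1 h1.1 h2.1⟩
  · rintro (⟨⟨h1, h2⟩, h3⟩ | ⟨⟨h1, h2⟩, h3⟩)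
    · exact Or.inl ⟨key _ _ h1, key _ _ h2, key _ _ h3⟩
    · exact Or.inr ⟨key _ _ h1, key _ _ h2, key _ _ h3⟩

theorem sharp (β : ℝ) (hβ : bet < β) : ∃ ε : ℝ, 0 < ε ∧ ∃ t : ℕ, 3 ≤ t ∧ ∀ n₀ : ℕ, ∃ n : ℕ, n₀ ≤ n ∧
    ∃ (r : Fin n → Fin n → Prop) (H : Finset (Finset (Fin n))),
      (∀ a, ¬ r a a) ∧ (∀ a b, a ≠ b → (r a b ↔ ¬ r b a)) ∧
      (∀ e, e ∈ H ↔ e.card = 3 ∧ ∃ a b c, e = {a, b, c} ∧ r a b ∧ r b c ∧ r c a) ∧
      (2 / 9 + ε) * (n.choose 3 : ℝ) ≤ (H.card : ℝ) ∧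
      ∀ S : Finset (Fin n), S.card = t →
        ((H.filter fun e => e ⊆ S).card : ℝ) < β * (t.choose 3 : ℝ) := by
  classical
  have hb := bet_gt
  obtain ⟨t, ht⟩ := exists_nat_gt (max 3 (3 * β / (β - bet)))
  have ht3 : (3 : ℝ) < t := (le_max_left _ _).trans_lt ht
  have ht4 : 3 * β < t * (β - bet) := by
    rw [← div_lt_iff₀ (by linarith)]
    exact (le_max_right _ _).trans_lt ht
  refine ⟨1 / 200, by norm_num, t, by exact_mod_cast ht3.le, fun m => ⟨9 * m, by omega, ?_⟩⟩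
  let c : Fin (9 * m) → Fin 7 := fun x => ![0, 1, 2, 3, 3, 3, 4, 4, 4] (finProdFinEquiv.symm x).1
  let H : Finset (Finset (Fin (9 * m))) := univ.filter fun e =>
    e.card = 3 ∧ ∃ a b d, e = {a, b, d} ∧ blow c a b ∧ blow c b d ∧ blow c d a
  have hH : ∀ e, e ∈ H ↔
      e.card = 3 ∧ ∃ a b d, e = {a, b, d} ∧ blow c a b ∧ blow c b d ∧ blow c d a := by
    simp [H]
  have h3 : ∀ e ∈ H, e.card = 3 := fun e he => ((hH e).1 he).1
  have cnt : ∀ S : Finset (Fin (9 * m)), (6 * (H.filter fun e => e ⊆ S).card : ℝ) =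
      P (GP 1) univ fun i => ∑ _a ∈ S with c _a = i, (1 : ℝ) := by
    intro S
    have := P_cast (rel H) S fun _ => 1
    rw [P_rel H h3, rel_eq hH, blow_E, P_push] at this
    simpa using this
  refine ⟨blow c, H, fun a h => ?_, blow_tot c, hH, ?_, fun S hS => ?_⟩
  · rcases h with h | h
    · simp [R7_irr] at h
    · exact absurd h.2 (lt_irrefl _)
  · have h1 := cnt univ
    have s : ∀ i, ∑ _a ∈ univ with c _a = i, (1 : ℝ) =
        (![1, 1, 1, 3, 3, 0, 0] : Fin 7 → ℝ) i * m := by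
      intro i
      rw [sum_filter, ← finProdFinEquiv.sum_comp, Fintype.sum_prod_type]
      simp only [c, Equiv.symm_apply_apply, sum_const, card_univ, Fintype.card_fin, nsmul_eq_mul]
      fin_cases i <;> simp [Fin.sum_univ_succ] <;> ring
    simp only [s, P_GP1, subset_univ, filter_true] at h1
    have h2 := six_choose_le (9 * m)
    have h4 : (0 : ℝ) ≤ (m : ℝ) ^ 3 := by positivity
    simp at h1
    push_cast at h2
    nlinarith
  · have h1 := cnt S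
    have h0 : ∀ i, 0 ≤ ∑ _a ∈ S with c _a = i, (1 : ℝ) := fun i =>
      sum_nonneg fun _ _ => zero_le_one
    have h2 := f32_le (h0 0) (h0 1) (h0 2) (h0 3) (h0 4)
    have h4 := sum_fiberwise S c fun _ => (1 : ℝ)
    rw [Fin.sum_univ_seven, sum_const (s := S), hS, nsmul_eq_mul, mul_one] at h4
    rw [P_GP1] at h1
    have h5 := pow_le_pow_left₀ (by linarith [h0 0, h0 1, h0 2, h0 3, h0 4]) (by
      linarith [h0 5, h0 6] : (∑ _a ∈ S with c _a = 0, (1 : ℝ)) + (∑ _a ∈ S with c _a = 1, (1 : ℝ)) +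
        (∑ _a ∈ S with c _a = 2, (1 : ℝ)) + (∑ _a ∈ S with c _a = 3, (1 : ℝ)) +
        (∑ _a ∈ S with c _a = 4, (1 : ℝ)) ≤ t) 3
    have h6 := mul_le_mul_of_nonneg_left h5 (by linarith : 0 ≤ bet)
    have h7 := mul_le_mul_of_nonneg_left (le_six_choose t) (by linarith : 0 ≤ β)
    have h8 := mul_lt_mul_of_pos_left ht4 (by positivity : (0 : ℝ) < (t : ℝ) ^ 2)
    nlinarith

end Pool.Agent.MP_16ca68_co.D
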