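import Pool.Agent.MP_16ca68_co.D.Hv
import Pool.Agent.MP_16ca68_co.Jump

/-! From the weighted bound to dense subsets. -/

set_option autoImplicit false

namespace Pool.Agent.MP_16ca68_co.D

open Finset

lemma P_rel {n : ℕ} (H : Finset (Finset (Fin n))) (hH : ∀ e ∈ H, e.card = 3)
    (S : Finset (Fin n)) :
    P (rel H) S (fun _ => (1 : ℕ)) = 6 * (H.filter fun e => e ⊆ S).card := by
  rw [← card_ordered H hH, card_filter, sum_product]
  simp only [sum_product, P, rel, decide_eq_true_eq, mul_one]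

lemma P_cast {V : Type} (G : V → V → V → Bool) (S : Finset V) (w : V → ℕ) :
    ((P G S w : ℕ) : ℝ) = P G S fun a => (w a : ℝ) := by
  simp [P]

lemma dense_box {n m : ℕ} (H : Finset (Finset (Fin n))) (hH : ∀ e ∈ H, e.card = 3) (b : ℝ)
    (hb : 0 ≤ b) (t : ℕ) (ht : 3 ≤ t) (G : Fin m → Fin m → Fin m → Bool) (hG : Sym G)
    (w : Fin m → ℕ) (hw : 0 < ∑ i, w i)
    (hwb : b * ((∑ i, w i : ℕ) : ℝ) ^ 3 ≤ ((P G univ w : ℕ) : ℝ))
    (A : Fin m → Finset (Fin n)) (hA : ∀ i, (A i).card = t * ∑ i, w i)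
    (hd : ∀ i j, i ≠ j → Disjoint (A i) (A j))
    (hu : ∀ u : Fin m → Fin n, (∀ i, u i ∈ A i) → lab (rel H) u = G) :
    ∃ S : Finset (Fin n), S.card = t ∧
      b * (t.choose 3 : ℝ) ≤ (H.filter fun e => e ⊆ S).card := by
  unfold P at hwb
  have hB : ∀ i, ∃ B ⊆ A i, B.card = t * w i := fun i => exists_subset_card_eq (by
    rw [hA]
    exact Nat.mul_le_mul_left _ (single_le_sum (f := w) (fun _ _ => Nat.zero_le _) (mem_univ i)))
  choose B hBA hBc using hB
  have hne : ∀ i, (A i).Nonempty := fun i => card_pos.1 (by rw [hA]; positivity)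
  choose x₀ hx₀ using hne
  have hdB : ∀ i j, i ≠ j → Disjoint (B i) (B j) := fun i j h =>
    (hd i j h).mono (hBA i) (hBA j)
  set S := univ.biUnion B with hS
  have hsum : ∀ f : Fin n → ℕ, ∑ x ∈ S, f x = ∑ i, ∑ x ∈ B i, f x := fun f =>
    sum_biUnion fun i _ j _ h => hdB i j h
  have hSc : S.card = t * ∑ i, w i := by
    rw [card_eq_sum_ones, hsum, mul_sum]
    simp [hBc]
  have hedge : ∀ i j k, G i j k = true → ∀ x ∈ B i, ∀ y ∈ B j, ∀ z ∈ B k,
      ({x, y, z} : Finset (Fin n)) ∈ H := by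
    intro i j k hijk x hx y hy z hz
    have hij : i ≠ j := by rintro rfl; simp [hG.irr] at hijk
    have hik : i ≠ k := by rintro rfl; rw [hG.s2, hG.irr] at hijk; simp at hijk
    have hjk : j ≠ k := by rintro rfl; rw [hG.s1, hG.s2, hG.irr] at hijk; simp at hijk
    have := hu (fun l => if l = i then x else if l = j then y else if l = k then z else x₀ l)
      (fun l => by
        split_ifs with h1 h2 h3
        · exact h1 ▸ hBA _ hx
        · exact h2 ▸ hBA _ hy
        · exact h3 ▸ hBA _ hz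
        · exact hx₀ l)
    rw [← this] at hijk
    simpa [lab, rel, hij.symm, hik.symm, hjk.symm] using hijk
  have hcount : t ^ 3 * (∑ i, ∑ j, ∑ k, if G i j k then w i * w j * w k else 0) ≤
      6 * (H.filter fun e => e ⊆ S).card := by
    rw [← card_ordered H hH, card_filter, sum_product, hsum, mul_sum]
    refine sum_le_sum fun i _ => ?_
    simp only [sum_product, hsum]
    rw [sum_comm (s := B i), mul_sum]
    refine sum_le_sum fun j _ => ?_
    have e1 : ∀ x, (∑ y ∈ B j, ∑ k, ∑ z ∈ B k, if ({x, y, z} : Finset (Fin n)) ∈ H then 1 else 0) =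
        ∑ k, ∑ y ∈ B j, ∑ z ∈ B k, if ({x, y, z} : Finset (Fin n)) ∈ H then 1 else 0 :=
      fun x => sum_comm
    simp only [e1]
    rw [sum_comm (s := B i), mul_sum]
    refine sum_le_sum fun k _ => ?_
    split_ifs with h
    · calc t ^ 3 * (w i * w j * w k) = ∑ _x ∈ B i, ∑ _y ∈ B j, ∑ _z ∈ B k, 1 := by
            simp only [sum_const, hBc, smul_eq_mul]; ring
        _ ≤ _ := sum_le_sum fun x hx => sum_le_sum fun y hy => sum_le_sum fun z hz => by
            rw [if_pos (hedge i j k h x hx y hy z hz)]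
    · simp
  obtain ⟨l, hm⟩ : ∃ l, S.card = t + l :=
    Nat.exists_eq_add_of_le (by rw [hSc]; exact Nat.le_mul_of_pos_right _ hw)
  refine down H hH b t ht l S hm ?_
  have h1 := six_choose_le S.card
  have h2 : (t : ℝ) ^ 3 * ((∑ i, ∑ j, ∑ k, if G i j k then w i * w j * w k else 0 : ℕ) : ℝ) ≤
      6 * ((H.filter fun e => e ⊆ S).card : ℝ) := by exact_mod_cast hcount
  have h3 : (S.card : ℝ) ^ 3 = (t : ℝ) ^ 3 * ((∑ i, w i : ℕ) : ℝ) ^ 3 := by
    rw [hSc, Nat.cast_mul, mul_pow]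
  have h4 : (0 : ℝ) ≤ (t : ℝ) ^ 3 := by positivity
  have h5 := mul_le_mul_of_nonneg_left hwb h4
  have h6 := mul_le_mul_of_nonneg_left h1 hb
  nlinarith

/-- three distinct coordinates of a tuple are uniformly distributed -/
lemma sum_three {V : Type} [Fintype V] {m : ℕ} (f : V → V → V → ℝ) {i j k : Fin (m + 3)}
    (hij : i ≠ j) (hik : i ≠ k) (hjk : j ≠ k) :
    ∑ z : Fin (m + 3) → V, f (z i) (z j) (z k) =
      (∑ a, ∑ b, ∑ c, f a b c) * (Fintype.card V : ℝ) ^ m := by
  classical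
  obtain ⟨σ, hσ⟩ := Equiv.Perm.exists_extending_pair
    (f := fun a : Fin 3 => (Fin.castLE (by omega) a : Fin (m + 3))) (g := ![i, j, k])
    (Fin.castLE_injective (by omega)) (by
      intro a b h
      fin_cases a <;> fin_cases b <;> simp_all [eq_comm])
  have e0 : σ 0 = i := hσ 0
  have e1 : σ 1 = j := hσ 1
  have e2 : σ 2 = k := hσ 2
  rw [← (Equiv.arrowCongr σ (Equiv.refl V)).sum_comp]
  have : ∀ (z : Fin (m + 3) → V) a, Equiv.arrowCongr σ (Equiv.refl V) z (σ a) = z a := by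
    intro z a
    simp
  simp only [← e0, ← e1, ← e2, this]
  rw [sum_tuple_succ, sum_mul]
  refine sum_congr rfl fun x _ => ?_
  rw [sum_tuple_succ, sum_mul]
  refine sum_congr rfl fun y _ => ?_
  rw [sum_tuple_succ, sum_mul]
  refine sum_congr rfl fun z _ => ?_
  have : ∀ v : Fin m → V, f
      ((Fin.cons x (Fin.cons y (Fin.cons z v : Fin (m + 1) → V) : Fin (m + 2) → V) :
        Fin (m + 3) → V) 0)
      ((Fin.cons x (Fin.cons y (Fin.cons z v : Fin (m + 1) → V) : Fin (m + 2) → V) :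
        Fin (m + 3) → V) 1)
      ((Fin.cons x (Fin.cons y (Fin.cons z v : Fin (m + 1) → V) : Fin (m + 2) → V) :
        Fin (m + 3) → V) 2) = f x y z := fun v => rfl
  simp only [this]
  simp [mul_comm]

lemma sum_P {V : Type} [Fintype V] (m : ℕ) (G : V → V → V → Bool) :
    (((m + 3 : ℕ) : ℝ) ^ 3 - 3 * ((m + 3 : ℕ) : ℝ) ^ 2) *
        (P G univ (fun _ => (1 : ℝ)) * (Fintype.card V : ℝ) ^ m) ≤
      ∑ z : Fin (m + 3) → V, P (lab G z) univ fun _ => (1 : ℝ) := by
  set C := P G univ (fun _ => (1 : ℝ)) * (Fintype.card V : ℝ) ^ m with hC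
  have hC0 : 0 ≤ C := mul_nonneg (sum_nonneg fun _ _ => sum_nonneg fun _ _ => sum_nonneg fun _ _ =>
    by split_ifs <;> norm_num) (by positivity)
  have h1 : ∀ i j k : Fin (m + 3), (1 - (if j = i then 1 else 0) - (if k = i then 1 else 0) -
      (if k = j then 1 else 0)) * C ≤
      ∑ z : Fin (m + 3) → V, if lab G z i j k then (1 : ℝ) * 1 * 1 else 0 := by
    intro i j k
    have h0 : 0 ≤ ∑ z : Fin (m + 3) → V, if lab G z i j k then (1 : ℝ) * 1 * 1 else 0 :=
      sum_nonneg fun _ _ => by split_ifs <;> norm_num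
    split_ifs with a b c c b c c
    any_goals linarith
    have := sum_three (fun a b c => if G a b c then (1 : ℝ) * 1 * 1 else 0) (Ne.symm a)
      (Ne.symm b) (Ne.symm c)
    refine le_of_eq (Eq.trans ?_ this.symm)
    rw [hC, P]
    ring
  calc _ = ∑ i : Fin (m + 3), ∑ j : Fin (m + 3), ∑ k : Fin (m + 3),
        (1 - (if j = i then 1 else 0) - (if k = i then 1 else 0) - (if k = j then 1 else 0)) * C := by
        simp only [← sum_mul, sum_sub_distrib, sum_const, card_univ, Fintype.card_fin,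
          nsmul_eq_mul, sum_ite_eq', mem_univ, if_true, ← mul_sum]
        ring
    _ ≤ ∑ i : Fin (m + 3), ∑ j : Fin (m + 3), ∑ k : Fin (m + 3), ∑ z : Fin (m + 3) → V,
        if lab G z i j k then (1 : ℝ) * 1 * 1 else 0 :=
        sum_le_sum fun i _ => sum_le_sum fun j _ => sum_le_sum fun k _ => h1 i j k
    _ = _ := by
        simp only [P]
        rw [sum_comm (s := (univ : Finset (Fin (m + 3) → V)))]
        refine sum_congr rfl fun i _ => ?_
        rw [sum_comm (s := (univ : Finset (Fin (m + 3) → V)))]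
        refine sum_congr rfl fun j _ => ?_
        rw [sum_comm (s := (univ : Finset (Fin (m + 3) → V)))]

lemma P_le_cube {m : ℕ} (G : Fin m → Fin m → Fin m → Bool) :
    P G univ (fun _ => (1 : ℝ)) ≤ (m : ℝ) ^ 3 := by
  calc _ ≤ ∑ _i : Fin m, ∑ _j : Fin m, ∑ _k : Fin m, (1 : ℝ) :=
        sum_le_sum fun _ _ => sum_le_sum fun _ _ => sum_le_sum fun _ _ => by
          split_ifs <;> norm_num
    _ = _ := by
        simp
        ring

theorem dense {b : ℝ} (hb0 : 0 ≤ b) (hb : b < bet) (ε : ℝ) (hε : 0 < ε) (t : ℕ) (ht : 3 ≤ t) :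
    ∃ n₀ : ℕ, ∀ n : ℕ, n₀ ≤ n → ∀ (r : Fin n → Fin n → Prop) (H : Finset (Finset (Fin n))),
      (∀ a, ¬ r a a) → (∀ e ∈ H, e.card = 3) → rel H = EB r →
      (2 / 9 + ε) * (n.choose 3 : ℝ) ≤ (H.card : ℝ) →
      ∃ S : Finset (Fin n), S.card = t ∧
        b * (t.choose 3 : ℝ) ≤ ((H.filter fun e => e ⊆ S).card : ℝ) := by
  classical
  obtain ⟨m, hm⟩ := exists_nat_ge (12 * (2 / 9 + ε / 2) / ε)
  have hw : ∀ G : Fin (m + 3) → Fin (m + 3) → Fin (m + 3) → Bool, ∃ w : Fin (m + 3) → ℕ,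
      Hv b G → 0 < ∑ i, w i ∧ b * ((∑ i, w i : ℕ) : ℝ) ^ 3 ≤ ((P G univ w : ℕ) : ℝ) := fun G => by
    by_cases h : Hv b G
    · obtain ⟨w, h⟩ := h
      exact ⟨w, fun _ => h⟩
    · exact ⟨0, fun h' => absurd h' h⟩
  choose w hw using hw
  obtain ⟨N, hN⟩ := box_colour
    (κ := (Fin (m + 3) → Fin (m + 3) → Fin (m + 3) → Bool) × (Fin (m + 3) → Fin (m + 3) → Bool))
    (fun c => t * ∑ i, w c.1 i) (m + 3) (ε / 4) (by positivity)
  obtain ⟨n₁, hn₁⟩ := exists_nat_ge (6 * (2 / 9 + ε) / ε)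
  refine ⟨max N (n₁ + 1), fun n hn r H hr hH hrel hd => ?_⟩
  have hn1 : N ≤ n := (le_max_left _ _).trans hn
  have hn2 : n₁ + 1 ≤ n := (le_max_right _ _).trans hn
  have hn0 : (0 : ℝ) < n := by exact_mod_cast (by omega : 0 < n)
  have hE := sym_rel H hH
  set T := univ.filter fun u : Fin (m + 3) → Fin n => Hv b (lab (rel H) u) with hT
  set M : ℝ := ((m + 3 : ℕ) : ℝ) with hM
  have hM0 : 0 < M := by positivity
  have h1 : ∑ u : Fin (m + 3) → Fin n, P (lab (rel H) u) univ (fun _ => (1 : ℝ)) ≤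
      ∑ _u : Fin (m + 3) → Fin n, 2 / 9 * M ^ 3 + M ^ 3 * T.card := by
    rw [hT, card_filter, Nat.cast_sum, mul_sum, ← sum_add_distrib]
    refine sum_le_sum fun u _ => ?_
    split_ifs with h
    · have := P_le_cube (lab (rel H) u)
      have : 0 ≤ M ^ 3 := by positivity
      simp only [Nat.cast_one]
      linarith
    · have e : lab (rel H) u = EB fun i j => r (u i) (u j) := by
        rw [hrel]
        rfl
      rw [e] at h ⊢
      have := lagr (r := fun i j => r (u i) (u j)) (fun a => hr _)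
        (fun hB => h (bad_hv hB hb)) univ (fun _ => 1) fun _ => zero_le_one
      simpa [hM] using this
  have h2 := (sum_P m (rel H)).trans h1
  have e6 : P (rel H) univ (fun _ => (1 : ℝ)) = 6 * H.card := by
    have := P_cast (rel H) univ fun _ => 1
    rw [P_rel H hH] at this
    simpa using this.symm
  rw [e6, sum_const, card_univ, nsmul_eq_mul, ← hM] at h2
  simp only [Fintype.card_pi, Fintype.card_fin, prod_const, card_univ, Nat.cast_pow] at h2
  have h3 : (2 / 9 + ε / 2) * (n : ℝ) ^ 3 ≤ 6 * H.card := by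
    have h4 := le_six_choose n
    have h5 : 6 * (2 / 9 + ε) ≤ n * ε := by
      have : (n₁ : ℝ) ≤ n := by exact_mod_cast (by omega : n₁ ≤ n)
      rw [← div_le_iff₀ hε]
      linarith
    have h6 : (0 : ℝ) ≤ (n : ℝ) ^ 2 := by positivity
    have h7 := mul_le_mul_of_nonneg_left h4 (by linarith : 0 ≤ 2 / 9 + ε)
    have h8 := mul_le_mul_of_nonneg_left h5 h6
    nlinarith
  have h4 : ε / 4 * (n : ℝ) ^ (m + 3) ≤ T.card := by
    have hM3 : (m : ℝ) + 3 = M := by rw [hM]; push_cast; rfl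
    have a1 : 12 * (2 / 9 + ε / 2) ≤ M * ε := by
      rw [← div_le_iff₀ hε]
      linarith
    have a2 : (2 / 9 + ε / 4) * M ^ 3 ≤ (M ^ 3 - 3 * M ^ 2) * (2 / 9 + ε / 2) := by
      nlinarith [mul_le_mul_of_nonneg_left a1 (sq_nonneg M)]
    have a3 : 0 ≤ M ^ 3 - 3 * M ^ 2 := by
      have : (0 : ℝ) ≤ m := Nat.cast_nonneg m
      nlinarith [mul_nonneg this (sq_nonneg M)]
    have a4 := mul_le_mul_of_nonneg_left
      (mul_le_mul_of_nonneg_right h3 (pow_pos hn0 m).le) a3
    have a5 := mul_le_mul_of_nonneg_right a2 (pow_pos hn0 (m + 3)).le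
    have a6 : (n : ℝ) ^ (m + 3) = (n : ℝ) ^ 3 * (n : ℝ) ^ m := by ring
    refine le_of_mul_le_mul_left ?_ (pow_pos hM0 3)
    rw [a6] at h2 a5 ⊢
    nlinarith
  obtain ⟨u₀, hu₀, A, hA, hA'⟩ := hN n hn1 T
    (fun u => (lab (rel H) u, fun i j => decide (u i = u j))) h4
  obtain ⟨hw1, hw2⟩ := hw _ (mem_filter.1 hu₀).2
  have hA2 : ∀ i, 1 < (A i).card := fun i => by rw [hA]; nlinarith
  refine dense_box H hH b hb0 t ht _ (hE.lab u₀) _ hw1 hw2 A hA ?_
    fun u hu => congrArg Prod.fst (hA' u hu)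
  intro i j hij
  rw [disjoint_left]
  intro x hxi hxj
  choose x₀ hx₀ using fun i => card_pos.1 (lt_trans zero_lt_one (hA2 i))
  obtain ⟨y, hy, hyx⟩ := exists_mem_ne (hA2 j) x
  have key : ∀ z ∈ A j, decide (x = z) = decide (u₀ i = u₀ j) := fun z hz => by
    have := hA' (fun l => if l = i then x else if l = j then z else x₀ l)
      (fun l => by
        split_ifs with h1 h2
        · exact h1 ▸ hxi
        · exact h2 ▸ hz
        · exact hx₀ l)
    have := congrFun (congrFun (congrArg Prod.snd this) i) j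
    simpa [hij.symm] using this
  have := (key x hxj).trans (key y hy).symm
  simp at this
  exact hyx this.symm

end Pool.Agent.MP_16ca68_co.D
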